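import Mathlib

/-!
# Cyclic norms (general part)

If `σ` is an automorphism of order `ℓ` of a finite extension `E₁/E` and the norm from `E₁` to
every intermediate field is surjective, then every element fixed by `σ` is a product of the
conjugates `σ^i e`, `i < ℓ`.
-/

set_option autoImplicit false
set_option linter.unusedVariables false
set_option linter.unusedSectionVars false

namespace Pool.Agent.Helper57.SR

open IntermediateField

/-- The cyclic norm as a product of powers of the generator. -/
theorem norm_fixedField_zpowers {E F : Type} [Field E] [Field F] [Algebra E F]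
    [FiniteDimensional E F] (σ : F ≃ₐ[E] F) (x : F) :
    algebraMap (fixedField (Subgroup.zpowers σ)) F
      (Algebra.norm (fixedField (Subgroup.zpowers σ)) x) =
      ∏ i ∈ Finset.range (orderOf σ), (σ ^ i) x := by
  classical
  set H := Subgroup.zpowers σ with hH
  have : IsGalois (fixedField H) F := by
    have := IsGalois.of_fixed_field F H
    exact this
  have hfin : IsOfFinOrder σ := isOfFinOrder_of_finite σ
  rw [Algebra.norm_eq_prod_automorphisms]
  have e1 : (Fin (orderOf σ)) ≃ H := finEquivZPowers hfin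
  let e2 : H ≃ (F ≃ₐ[fixedField H] F) := (subgroupEquivAlgEquiv H).toEquiv
  have h2 : ∀ h : H, ∀ y : F, (e2 h) y = (h : F ≃ₐ[E] F) y := by
    intro h y
    rfl
  rw [← Equiv.prod_comp e2, ← Equiv.prod_comp (finEquivZPowers hfin), Finset.prod_range]
  refine Finset.prod_congr rfl ?_
  intro i _
  rw [h2, finEquivZPowers_apply]

/-- The general statement: norms from the fixed field of `N` are surjective. -/
theorem exists_cyclic_norm_of {E L : Type} [Field E] [Field L]
    [Algebra E L] [FiniteDimensional E L] {Γ : Type} [Group Γ] (act : Γ →* (L ≃ₐ[E] L)) {ℓ : ℕ}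
    (hℓ : ℓ.Prime) (N : Subgroup Γ) (hker : ∀ g, act g = 1 → g ∈ N) (τ : Γ)
    (hτ : ∀ g, g ∈ N ↔ τ * g * τ⁻¹ ∈ N) (hτℓ : τ ^ ℓ ∈ N) (hτN : τ ∉ N) (a : L)
    (ha : ∀ g ∈ N, act g a = a) (haτ : act τ a = a)
    (hnorm : ∀ (F : IntermediateField E L) (K : IntermediateField E F) (b : K),
      ∃ x : F, Algebra.norm K x = b) :
    ∃ e : L, (∀ g ∈ N, act g e = e) ∧ ∏ i ∈ Finset.range ℓ, act (τ ^ i) e = a := by
  classical
  let H : Subgroup (L ≃ₐ[E] L) := N.map act
  let F : IntermediateField E L := fixedField H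
  have hmem : ∀ x : L, x ∈ F ↔ ∀ g ∈ N, act g x = x := by
    intro x
    rw [mem_fixedField_iff]
    constructor
    · intro h g hg
      exact h (act g) (Subgroup.mem_map_of_mem act hg)
    · rintro h _ ⟨g, hg, rfl⟩
      exact h g hg
  have hst : ∀ x ∈ F, act τ x ∈ F := by
    intro x hx
    rw [hmem] at hx ⊢
    intro g hg
    have h1 : τ⁻¹ * g * τ ∈ N := by
      rw [hτ]
      simpa [mul_assoc] using hg
    have h2 := hx _ h1
    have h3 : g * τ = τ * (τ⁻¹ * g * τ) := by group
    calc act g (act τ x) = act (g * τ) x := by rw [map_mul]; rfl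
      _ = act (τ * (τ⁻¹ * g * τ)) x := by rw [h3]
      _ = act τ (act (τ⁻¹ * g * τ) x) := by rw [map_mul]; rfl
      _ = act τ x := by rw [h2]
  let s : F →ₐ[E] F :=
    (((act τ : L ≃ₐ[E] L) : L →ₐ[E] L).comp F.val).codRestrict F.toSubalgebra
      (fun x => hst x x.2)
  have hs : ∀ x : F, ((s x : F) : L) = act τ (x : L) := fun x => rfl
  have hsinj : Function.Injective s := s.toRingHom.injective
  have hsbij : Function.Bijective s := by
    refine ⟨hsinj, ?_⟩
    exact (LinearMap.injective_iff_surjective (f := s.toLinearMap)).1 hsinj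
  let σ : F ≃ₐ[E] F := AlgEquiv.ofBijective s hsbij
  have hσ : ∀ x : F, ((σ x : F) : L) = act τ (x : L) := fun x => rfl
  have hσi : ∀ (i : ℕ) (x : F), (((σ ^ i) x : F) : L) = act (τ ^ i) (x : L) := by
    intro i
    induction i with
    | zero => intro x; simp
    | succ n ih =>
      intro x
      rw [pow_succ, pow_succ, map_mul]
      change (((σ ^ n) (σ x) : F) : L) = act (τ ^ n) (act τ (x : L))
      rw [ih, hσ]
  have hσℓ : σ ^ ℓ = 1 := by
    ext x
    rw [hσi]
    simp only [AlgEquiv.one_apply]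
    exact (hmem _).1 x.2 _ hτℓ
  have hσ1 : σ ≠ 1 := by
    intro h
    apply hτN
    have h1 : act τ ∈ fixingSubgroup (fixedField H) := by
      rw [IntermediateField.mem_fixingSubgroup_iff]
      intro x hx
      have h2 := hσ ⟨x, hx⟩
      rw [h] at h2
      exact h2.symm
    rw [fixingSubgroup_fixedField] at h1
    obtain ⟨n, hn, hn'⟩ := h1
    have h3 : act (τ * n⁻¹) = 1 := by
      rw [map_mul, map_inv, hn', mul_inv_cancel]
    have h4 := hker _ h3
    have h5 := N.mul_mem h4 hn
    simpa using h5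
  have : Fact ℓ.Prime := ⟨hℓ⟩
  have hord : orderOf σ = ℓ := orderOf_eq_prime hσℓ hσ1
  have haF : a ∈ F := (hmem a).2 ha
  let a' : F := ⟨a, haF⟩
  have ha' : a' ∈ fixedField (Subgroup.zpowers σ) := by
    rw [mem_fixedField_iff]
    intro f hf
    have h1 : σ a' = a' := by
      apply Subtype.ext
      rw [hσ]
      exact haτ
    have h2 : σ ∈ MulAction.stabilizer (F ≃ₐ[E] F) a' := by
      rw [MulAction.mem_stabilizer_iff]
      exact h1
    have h3 : Subgroup.zpowers σ ≤ MulAction.stabilizer (F ≃ₐ[E] F) a' := by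
      rw [Subgroup.zpowers_le]
      exact h2
    exact MulAction.mem_stabilizer_iff.1 (h3 hf)
  obtain ⟨x, hx⟩ := hnorm F (fixedField (Subgroup.zpowers σ)) ⟨a', ha'⟩
  refine ⟨(x : L), (hmem _).1 x.2, ?_⟩
  have h1 := norm_fixedField_zpowers σ x
  rw [hx, hord] at h1
  have h2 := congrArg (fun y : F => (y : L)) h1

  have h3 : ((∏ i ∈ Finset.range ℓ, (σ ^ i) x : F) : L) =
      ∏ i ∈ Finset.range ℓ, act (τ ^ i) (x : L) := by
    have h4 := map_prod F.val (fun i => (σ ^ i) x) (Finset.range ℓ)
    simp only [IntermediateField.coe_val] at h4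
    rw [h4]
    exact Finset.prod_congr rfl (fun i _ => hσi i x)
  rw [← h3, ← h2]
  rfl

end Pool.Agent.Helper57.SR
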