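import Pool.Agent.Helper42.SR.C1b
import Pool.Agent.Helper57.SR.CyclicNorm

/-!
# SR-C2: products over a cyclic group of automorphisms, from surjectivity of norms
-/

set_option autoImplicit false
set_option linter.unusedVariables false
set_option linter.unusedSectionVars false

namespace Pool.Agent.Helper54.SR

/-- SR-C2 -/
theorem exists_cyclic_norm {k E L : Type} [Field k] [IsAlgClosed k] [Field E] [Field L]
    [Algebra (RatFunc k) E] [FiniteDimensional (RatFunc k) E] [Algebra E L]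
    [FiniteDimensional E L] {Γ : Type} [Group Γ] [Finite Γ] (act : Γ →* (L ≃ₐ[E] L)) {ℓ : ℕ}
    (hℓ : ℓ.Prime) (N : Subgroup Γ) (hker : ∀ g, act g = 1 → g ∈ N) (τ : Γ)
    (hτ : ∀ g, g ∈ N ↔ τ * g * τ⁻¹ ∈ N) (hτℓ : τ ^ ℓ ∈ N) (hτN : τ ∉ N) (a : L)
    (ha : ∀ g ∈ N, act g a = a) (haτ : act τ a = a) :
    ∃ e : L, (∀ g ∈ N, act g e = e) ∧ ∏ i ∈ Finset.range ℓ, act (τ ^ i) e = a := by
  refine Pool.Agent.Helper57.SR.exists_cyclic_norm_of act hℓ N hker τ hτ hτℓ hτN a ha haτ ?_
  intro F K b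
  let _ : Algebra (RatFunc k) K :=
    ((algebraMap E K).comp (algebraMap (RatFunc k) E)).toAlgebra
  have : IsScalarTower (RatFunc k) E K := IsScalarTower.of_algebraMap_eq (fun _ => rfl)
  have : FiniteDimensional (RatFunc k) K := FiniteDimensional.trans (RatFunc k) E K
  exact norm_surjective (k := k) b

end Pool.Agent.Helper54.SR
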